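import Pool.Agent.Helper36_F5H.StmtsK
import Pool.Agent.Helper36_F5H.F2a
import Pool.Agent.Helper67_F5H.CKV

/-!
MP_f5cbfa_nt, squad F5H, row K_VKP: the normal part of `kph`.
-/

set_option autoImplicit false

open MeasureTheory Complex ComplexConjugate

namespace Pool.Agent.F5H.K2.H18

open Pool.Agent.BTL Pool.Agent.F5S Pool.Agent.F5H Pool.Agent.F5H.BC
open Pool.Agent.Helper68_F5 (bf wd bf_comm bf_real bf_smul bf_add_left)

/-- `T - r` -/
theorem rh_gap {T : ℝ} (hT : 0 < T) {z : ℂ} (hz : ‖z‖ ≤ T) :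
    T - BC.rh T z ≤ ‖z‖ ^ 2 / (4 * T) := by
  obtain ⟨h1, h2⟩ := H67.rh_bd hT hz
  have hs : BC.rh T z ^ 2 = T ^ 2 - ‖z‖ ^ 2 / 4 := by
    unfold BC.rh
    rw [Real.sq_sqrt]
    nlinarith [norm_nonneg z]
  rw [le_div_iff₀ (by positivity)]
  nlinarith

theorem wd_real_real (a b : ℝ) (z w : ℂ) : wd ((a : ℂ) * z) ((b : ℂ) * w) = a * b * wd z w := by
  simp only [wd, mul_re, mul_im, ofReal_re, ofReal_im]
  ring

theorem sz_le (B : ℝ × ℝ × ℝ) : H67.sz B ≤ 4 * ‖B‖ := by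
  obtain ⟨h1, h2, h3⟩ := F2.le_norm3 B
  unfold H67.sz
  linarith

theorem vkp : VKPStmt := by
  refine ⟨40, by norm_num, ?_⟩
  intro T Q hQ hT1 hQT H ep th V0 hep hG hHV hV0 hV0L hD
  have hT0 : 0 < T := by linarith
  have hQ0 : 0 < Q := by linarith
  have hQ1 : 1 ≤ Q := by linarith
  have hV00 : 0 < V0 := by linarith
  have hQT30 : Q ^ 30 ≤ T ^ (1 / 100000 : ℝ) :=
    (pow_le_pow_right₀ hQ1 (by norm_num)).trans hQT
  have nm := H67.mk_nm hQ hT0 hQT30
  obtain ⟨hg1, hg2, hg3, hg4⟩ := hG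
  have hH0 : ∀ l, 0 < ‖H l‖ := by
    intro l
    have := (hg1 l).1
    by_contra hc
    have := mul_nonpos_of_nonneg_of_nonpos hQ0.le (le_of_not_gt hc)
    linarith
  have g : H67.Ge T (Q * Lx T) (Q ^ 2) H ep th := by
    refine ⟨hT0, fun l => (hg1 l).2, nm.n2, hH0, hep, ?_, ?_⟩
    · intro l
      by_cases hl : l = 2
      · rw [hl]
        have : 1 ≤ Q ^ 2 := one_le_pow₀ hQ1
        have := norm_nonneg (H 2)
        nlinarith
      · exact hD l hl
    · intro l hl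
      have h1 := hg2 l hl
      have h2 := nm.n3
      have h3 : 4 * Q * (T * |(conj (cexp ((th : ℂ) * I)) * H 2).re|) ≤
          4 * Q * (Q * Rx T) := mul_le_mul_of_nonneg_left hg3 (by positivity)
      have h4 : T * T ^ (677 / 2000 : ℝ) ≤ T * (Q * ‖H l‖) :=
        mul_le_mul_of_nonneg_left h1 hT0.le
      have h5 : (Q * T) * (4 * |(conj (cexp ((th : ℂ) * I)) * H 2).re|) ≤
          (Q * T) * ‖H l‖ := by linarith
      exact le_of_mul_le_mul_left h5 (by positivity)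
  have hLsq : Lx T ^ 2 = T ^ (277 / 250 : ℝ) := by
    unfold Lx
    rw [← Real.rpow_natCast (T ^ (277 / 500 : ℝ)), ← Real.rpow_mul hT0.le]
    norm_num
  have hHT : ∀ l, ‖H l‖ ≤ T := fun l => (g.hL l).trans g.hLT
  have h96 : ∀ l, 96 * Q ^ 2 * ‖H l‖ ^ 2 ≤ T ^ 2 := by
    intro l
    have h1 : Q ^ 11 * T ^ (277 / 250 : ℝ) ≤ T ^ (2 : ℝ) :=
      H67.pl hQ hT1 hQT (by norm_num) (by norm_num)
    have h2 : T ^ (2 : ℝ) = T ^ 2 := by rw [← Real.rpow_natCast]; norm_num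
    rw [h2] at h1
    refine le_trans ?_ h1
    have h3 : ‖H l‖ ^ 2 ≤ (Q * Lx T) ^ 2 := pow_le_pow_left₀ (norm_nonneg _) (g.hL l) 2
    rw [mul_pow, hLsq] at h3
    have h4 : (2 : ℝ) ^ 7 ≤ Q ^ 7 := pow_le_pow_left₀ (by norm_num) hQ 7
    norm_num at h4
    have h5 : 0 ≤ T ^ (277 / 250 : ℝ) := Real.rpow_nonneg hT0.le _
    calc 96 * Q ^ 2 * ‖H l‖ ^ 2 ≤ 96 * Q ^ 2 * (Q ^ 2 * T ^ (277 / 250 : ℝ)) :=
          mul_le_mul_of_nonneg_left h3 (by positivity)
      _ = 96 * (Q ^ 4 * T ^ (277 / 250 : ℝ)) := by ring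
      _ ≤ Q ^ 7 * (Q ^ 4 * T ^ (277 / 250 : ℝ)) :=
          mul_le_mul_of_nonneg_right (by linarith) (by positivity)
      _ = _ := by ring
  have hs : ∀ l m, l ≠ m → 1 ≤ Q * |wd (wG T H ep th l) (wG T H ep th m)| := by
    intro l m hlm
    have := hg4 l m hlm
    have e : (conj (wG T H ep th l) * wG T H ep th m).im =
        wd (wG T H ep th l) (wG T H ep th m) := by
      simp only [wd, mul_im, conj_re, conj_im]
      ring
    rw [e] at this
    exact this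
  -- abbreviations
  have hr := fun l => g.rh l
  have hr0 : ∀ l, 0 < BC.rh T (H l) := fun l => by linarith [(hr l).1]
  have hgap : ∀ l, T - BC.rh T (H l) ≤ (Q * V0) ^ 2 / (4 * T) := by
    intro l
    refine (rh_gap hT0 (hHT l)).trans ?_
    exact div_le_div_of_nonneg_right (pow_le_pow_left₀ (norm_nonneg _) (hHV l) 2) (by positivity)
  have hMn : ∀ l, ‖mG T H ep th l‖ = BC.rh T (H l) := by
    intro l
    unfold mG
    rw [norm_mul, g.norm_wG, mul_one, Complex.norm_real, Real.norm_eq_abs,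
      abs_of_pos (hr0 l)]
  obtain ⟨B, hB, hBn⟩ := F2.solve (T := T) (P := Q) (M := mG T H ep th) (H := H) hQ1 hT0
    (fun l => by rw [hMn l]; exact (hr l).1)
    (by
      intro i j hij
      rw [hMn i, hMn j]
      have e : wd (mG T H ep th i) (mG T H ep th j) =
          BC.rh T (H i) * BC.rh T (H j) * wd (wG T H ep th i) (wG T H ep th j) := by
        unfold mG
        exact wd_real_real _ _ _ _
      rw [e, abs_mul, abs_of_pos (mul_pos (hr0 i) (hr0 j))]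
      have h1 := hs i j hij
      have h2 := mul_le_mul_of_nonneg_left h1 (mul_pos (hr0 i) (hr0 j)).le
      linarith)
    h96 (fun l => -(2 * BC.rh T (H l) * ‖H l‖ ^ 2)) (F := 2 * T * (Q * V0) ^ 2)
    (by
      intro l
      rw [abs_neg, abs_of_nonneg (by have := hr0 l; positivity)]
      have h1 : ‖H l‖ ^ 2 ≤ (Q * V0) ^ 2 := pow_le_pow_left₀ (norm_nonneg _) (hHV l) 2
      have h2 := hr0 l
      calc 2 * BC.rh T (H l) * ‖H l‖ ^ 2 ≤ 2 * T * ‖H l‖ ^ 2 :=
            mul_le_mul_of_nonneg_right (by linarith [(hr l).2]) (by positivity)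
        _ ≤ _ := mul_le_mul_of_nonneg_left h1 (by positivity))
  have hBT : ‖B‖ * T ≤ 48 * Q ^ 4 * V0 ^ 2 := by
    have h1 : 24 * Q ^ 2 * (2 * T * (Q * V0) ^ 2) / T ^ 2 * T = 48 * Q ^ 4 * V0 ^ 2 := by
      field_simp
      ring
    rw [← h1]
    exact mul_le_mul_of_nonneg_right hBn hT0.le
  have hB0 : 0 ≤ ‖B‖ := norm_nonneg _
  have hmu : ∀ l, muG T H ep th B l = ‖H l‖ ^ 2 := by
    intro l
    unfold muG
    rw [hB l]
    have := hr0 l
    field_simp
  -- powers of two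
  have p2 : ∀ k : ℕ, (2 : ℝ) ^ k ≤ Q ^ k := fun k => pow_le_pow_left₀ (by norm_num) hQ k
  have hQpow : ∀ {i j : ℕ}, i ≤ j → Q ^ i ≤ Q ^ j := fun h => pow_le_pow_right₀ hQ1 h
  obtain ⟨d, hd⟩ : ∃ d : Fin 3 → ℝ, d = fun l => if l = 2 then 0 else
      -(tG T H ep th 2 / nG T H ep th l * (‖H l‖ ^ 2 - ‖H 2‖ ^ 2)) - yG T H ep th B 0 l := ⟨_, rfl⟩
  refine ⟨B, d, ?_, ?_, ?_, ?_, ?_⟩
  · rw [hd]; simp
  · intro K
    rw [H67.sp_eq, ← Finset.sum_add_distrib]
    unfold kph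
    refine Finset.sum_congr rfl fun l _ => ?_
    rw [hmu l, hd]
    unfold H67.al H67.be
    by_cases hl : l = 2
    · simp only [hl, if_true]
      have : yG T H ep th B 0 2 = 0 := by unfold yG; simp
      rw [this]
      ring
    · simp only [hl, if_false]
      ring
  · obtain ⟨h1, h2, h3⟩ := F2.le_norm3 B
    have h4 : (|B.1| + |B.2.1| + |B.2.2|) * T ≤ 3 * (‖B‖ * T) := by
      have : |B.1| + |B.2.1| + |B.2.2| ≤ 3 * ‖B‖ := by linarith
      calc _ ≤ 3 * ‖B‖ * T := mul_le_mul_of_nonneg_right this hT0.le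
        _ = _ := by ring
    refine h4.trans ?_
    have h5 := p2 8
    norm_num at h5
    have h6 : Q ^ 8 * Q ^ 4 ≤ Q ^ 40 := by
      rw [← pow_add]; exact hQpow (by norm_num)
    have h7 : 144 * Q ^ 4 ≤ Q ^ 8 * Q ^ 4 :=
      mul_le_mul_of_nonneg_right (by linarith) (by positivity)
    have h8 := mul_le_mul_of_nonneg_right (h7.trans h6) (show (0 : ℝ) ≤ V0 ^ 2 by positivity)
    linarith
  · intro l
    by_cases hl : l = 2
    · rw [hd]; simp only [hl, if_true, abs_zero]; positivity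
    · have hn := g.nG_ge hl
      have hn0 : 0 < |nG T H ep th l| := by linarith [hH0 l]
      have ht := g.tG_le 2
      have hy := g.y_le B (by positivity : (0 : ℝ) ≤ Q ^ 2) l
      have hD' := hD l hl
      have hHl := hH0 l
      have e1 : |tG T H ep th 2 / nG T H ep th l * (‖H l‖ ^ 2 - ‖H 2‖ ^ 2)| ≤
          4 * Q ^ 6 * V0 ^ 2 := by
        rw [abs_mul, abs_div, div_mul_eq_mul_div, div_le_iff₀ hn0]
        have a1 : |‖H l‖ ^ 2 - ‖H 2‖ ^ 2| ≤ 2 * Q ^ 4 * ‖H l‖ ^ 2 := by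
          have b1 : ‖H 2‖ ^ 2 ≤ (Q ^ 2 * ‖H l‖) ^ 2 := pow_le_pow_left₀ (norm_nonneg _) hD' 2
          have b2 : ‖H l‖ ^ 2 ≤ Q ^ 4 * ‖H l‖ ^ 2 := by
            have : 1 ≤ Q ^ 4 := one_le_pow₀ hQ1
            nlinarith [sq_nonneg ‖H l‖]
          have b3 : (Q ^ 2 * ‖H l‖) ^ 2 = Q ^ 4 * ‖H l‖ ^ 2 := by ring
          rw [b3] at b1
          have b4 : 0 ≤ ‖H 2‖ ^ 2 := by positivity
          have b5 : 0 ≤ ‖H l‖ ^ 2 := by positivity
          rw [abs_le]
          constructor <;> linarith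
        have a2 : |tG T H ep th 2| * |‖H l‖ ^ 2 - ‖H 2‖ ^ 2| ≤
            ‖H 2‖ * (2 * Q ^ 4 * ‖H l‖ ^ 2) :=
          mul_le_mul ht a1 (abs_nonneg _) (norm_nonneg _)
        refine a2.trans ?_
        have a3 : ‖H 2‖ * ‖H l‖ ≤ (Q * V0) * (Q * V0) :=
          mul_le_mul (hHV 2) (hHV l) (norm_nonneg _) (by positivity)
        calc ‖H 2‖ * (2 * Q ^ 4 * ‖H l‖ ^ 2) = (4 * Q ^ 4 * (‖H l‖ / 2)) * (‖H 2‖ * ‖H l‖) := by ring
          _ ≤ (4 * Q ^ 4 * (‖H l‖ / 2)) * ((Q * V0) * (Q * V0)) :=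
            mul_le_mul_of_nonneg_left a3 (by positivity)
          _ = 4 * Q ^ 6 * V0 ^ 2 * (‖H l‖ / 2) := by ring
          _ ≤ 4 * Q ^ 6 * V0 ^ 2 * |nG T H ep th l| :=
            mul_le_mul_of_nonneg_left hn (by positivity)
      have e2 : |yG T H ep th B 0 l| ≤ 2304 * Q ^ 6 * V0 ^ 2 := by
        refine hy.trans ?_
        have c1 := sz_le B
        have c2 : H67.sz B * T ≤ 4 * (48 * Q ^ 4 * V0 ^ 2) := by
          calc H67.sz B * T ≤ 4 * ‖B‖ * T := mul_le_mul_of_nonneg_right c1 hT0.le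
            _ = 4 * (‖B‖ * T) := by ring
            _ ≤ _ := mul_le_mul_of_nonneg_left hBT (by norm_num)
        have c3 : Q ^ 2 + 1 ≤ 2 * Q ^ 2 := by
          have : 1 ≤ Q ^ 2 := one_le_pow₀ hQ1
          linarith
        have c4 : 0 ≤ H67.sz B * T := mul_nonneg (H67.sz_nonneg B) hT0.le
        calc 6 * H67.sz B * T * (Q ^ 2 + 1) = 6 * ((H67.sz B * T) * (Q ^ 2 + 1)) := by ring
          _ ≤ 6 * ((4 * (48 * Q ^ 4 * V0 ^ 2)) * (2 * Q ^ 2)) :=
            mul_le_mul_of_nonneg_left (mul_le_mul c2 c3 (by positivity) (by positivity))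
              (by norm_num)
          _ = _ := by ring
      have e3 : d l = -(tG T H ep th 2 / nG T H ep th l * (‖H l‖ ^ 2 - ‖H 2‖ ^ 2)) -
          yG T H ep th B 0 l := by
        rw [hd]; simp only [hl, if_false]
      rw [e3]
      refine (abs_sub _ _).trans ?_
      rw [abs_neg]
      have h5 := p2 12
      norm_num at h5
      have h6 : Q ^ 12 * Q ^ 6 ≤ Q ^ 40 := by
        rw [← pow_add]; exact hQpow (by norm_num)
      have h7 : 2308 * Q ^ 6 ≤ Q ^ 12 * Q ^ 6 :=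
        mul_le_mul_of_nonneg_right (by linarith) (by positivity)
      have h8 := mul_le_mul_of_nonneg_right (h7.trans h6) (show (0 : ℝ) ≤ V0 ^ 2 by positivity)
      linarith
  · -- the last inequality
    have h02 : (0 : Fin 3) ≠ 2 := by decide
    have hn := g.nG_ge h02
    have hn0 : nG T H ep th 0 ≠ 0 := by
      intro h
      rw [h, abs_zero] at hn
      linarith [hH0 0]
    obtain ⟨a, ha⟩ : ∃ a, a = aa (wG T H ep th 0) (wG T H ep th 1) (wG T H ep th 2) (H 0) (H 1)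
      (H 2) := ⟨_, rfl⟩
    have u : Un Q (wG T H ep th 0) (wG T H ep th 1) (wG T H ep th 2) :=
      ⟨g.norm_wG 0, g.norm_wG 1, g.norm_wG 2, hs 0 1 (by decide), hs 1 2 (by decide),
        hs 2 0 (by decide)⟩
    have hav : ∀ l, bf a (wG T H ep th l) (wG T H ep th l) = ‖H l‖ ^ 2 := by
      intro l
      rw [ha, aa]
      fin_cases l
      · exact u.v₁ _ _ _
      · exact u.v₂ _ _ _
      · exact u.v₃ _ _ _
    obtain ⟨E, hE⟩ : ∃ E, E = B + (2 / T) • a := ⟨_, rfl⟩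
    have hEv : ∀ l, |bf E (wG T H ep th l) (wG T H ep th l)| ≤ 200 * Q ^ 6 * V0 ^ 4 / T ^ 3 := by
      intro l
      have r0 := hr0 l
      have e1 : bf B (mG T H ep th l) (mG T H ep th l) =
          BC.rh T (H l) ^ 2 * bf B (wG T H ep th l) (wG T H ep th l) := by
        unfold mG
        rw [bf_real, bf_comm, bf_real]
        ring
      have e2 := hB l
      rw [e1] at e2
      have e3 : bf E (wG T H ep th l) (wG T H ep th l) =
          -(2 * ‖H l‖ ^ 2 * (T - BC.rh T (H l)) / (T * BC.rh T (H l))) -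
            bf B (H l) (H l) / (4 * BC.rh T (H l) ^ 2) := by
        rw [hE, bf_add_left, bf_smul, hav l]
        field_simp
        linear_combination (4 * T) * e2
      rw [e3]
      refine (abs_sub _ _).trans ?_
      rw [abs_neg]
      have hHl2 : ‖H l‖ ^ 2 ≤ (Q * V0) ^ 2 := pow_le_pow_left₀ (norm_nonneg _) (hHV l) 2
      have hrT : T ^ 2 / 4 ≤ BC.rh T (H l) ^ 2 := by
        have := pow_le_pow_left₀ (by positivity) (hr l).1 2
        linarith [show (T / 2) ^ 2 = T ^ 2 / 4 by ring]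
      have t1 : |2 * ‖H l‖ ^ 2 * (T - BC.rh T (H l)) / (T * BC.rh T (H l))| ≤
          Q ^ 4 * V0 ^ 4 / T ^ 3 := by
        have c0 : 0 ≤ T - BC.rh T (H l) := by linarith [(hr l).2]
        rw [abs_of_nonneg (by positivity)]
        rw [div_le_iff₀ (by positivity)]
        calc 2 * ‖H l‖ ^ 2 * (T - BC.rh T (H l)) ≤ 2 * (Q * V0) ^ 2 * ((Q * V0) ^ 2 / (4 * T)) := by
              apply mul_le_mul _ (hgap l) c0 (by positivity)
              linarith
          _ = Q ^ 4 * V0 ^ 4 / T ^ 3 * (T * (T / 2)) := by field_simp; ring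
          _ ≤ Q ^ 4 * V0 ^ 4 / T ^ 3 * (T * BC.rh T (H l)) := by
              apply mul_le_mul_of_nonneg_left _ (by positivity)
              exact mul_le_mul_of_nonneg_left (hr l).1 hT0.le
      have t2 : |bf B (H l) (H l) / (4 * BC.rh T (H l) ^ 2)| ≤ 192 * Q ^ 6 * V0 ^ 4 / T ^ 3 := by
        rw [abs_div, abs_of_pos (show 0 < 4 * BC.rh T (H l) ^ 2 by positivity),
          div_le_iff₀ (by positivity)]
        have c1 := F2.bf_le B (H l) (H l)
        have c2 : ‖B‖ ≤ 48 * Q ^ 4 * V0 ^ 2 / T := by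
          rw [le_div_iff₀ hT0]; exact hBT
        calc |bf B (H l) (H l)| ≤ 4 * ‖B‖ * (‖H l‖ * ‖H l‖) := c1
          _ = 4 * ‖B‖ * ‖H l‖ ^ 2 := by ring
          _ ≤ 4 * (48 * Q ^ 4 * V0 ^ 2 / T) * (Q * V0) ^ 2 :=
              mul_le_mul (by linarith) hHl2 (by positivity) (by positivity)
          _ = 192 * Q ^ 6 * V0 ^ 4 / T ^ 3 * (4 * (T ^ 2 / 4)) := by field_simp; ring
          _ ≤ 192 * Q ^ 6 * V0 ^ 4 / T ^ 3 * (4 * BC.rh T (H l) ^ 2) := by
              apply mul_le_mul_of_nonneg_left _ (by positivity)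
              linarith
      have t3 : Q ^ 4 * V0 ^ 4 / T ^ 3 ≤ 8 * Q ^ 6 * V0 ^ 4 / T ^ 3 := by
        apply div_le_div_of_nonneg_right _ (by positivity)
        have := hQpow (show 4 ≤ 6 by norm_num)
        have c := mul_le_mul_of_nonneg_right this (show (0 : ℝ) ≤ V0 ^ 4 by positivity)
        have : 0 ≤ Q ^ 6 * V0 ^ 4 := by positivity
        linarith
      have t4 : 8 * Q ^ 6 * V0 ^ 4 / T ^ 3 + 192 * Q ^ 6 * V0 ^ 4 / T ^ 3 =
          200 * Q ^ 6 * V0 ^ 4 / T ^ 3 := by ring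
      linarith
    have hEb : ∀ l, |bf E (wG T H ep th l) (H l)| ≤ 600 * Q ^ 9 * V0 ^ 5 / T ^ 3 := by
      intro l
      have k := u.bound hQ0 (hEv 0) (hEv 1) (hEv 2) (wG T H ep th l) (H l)
      rw [g.norm_wG l, one_mul] at k
      refine k.trans ?_
      calc 3 * Q ^ 2 * (200 * Q ^ 6 * V0 ^ 4 / T ^ 3) * ‖H l‖
          ≤ 3 * Q ^ 2 * (200 * Q ^ 6 * V0 ^ 4 / T ^ 3) * (Q * V0) :=
            mul_le_mul_of_nonneg_left (hHV l) (by positivity)
        _ = _ := by ring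
    have hab : ∀ l, |bf a (wG T H ep th l) (H l)| ≤ 3 * Q ^ 5 * V0 ^ 3 := by
      intro l
      have k := u.aa_le hQ0 (hHV 0) (hHV 1) (hHV 2) (wG T H ep th l) (H l)
      rw [← ha, g.norm_wG l, one_mul] at k
      refine k.trans ?_
      calc 3 * Q ^ 2 * (Q * V0) ^ 2 * ‖H l‖ ≤ 3 * Q ^ 2 * (Q * V0) ^ 2 * (Q * V0) :=
            mul_le_mul_of_nonneg_left (hHV l) (by positivity)
        _ = _ := by ring
    have key : ∀ l, |bf B (mG T H ep th l) (H l) + 2 * bf a (wG T H ep th l) (H l)| ≤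
        602 * Q ^ 9 * V0 ^ 5 / T ^ 2 := by
      intro l
      have e1 : bf B (mG T H ep th l) (H l) + 2 * bf a (wG T H ep th l) (H l) =
          BC.rh T (H l) * bf E (wG T H ep th l) (H l) +
            2 * ((T - BC.rh T (H l)) / T) * bf a (wG T H ep th l) (H l) := by
        have e0 : bf B (mG T H ep th l) (H l) = BC.rh T (H l) * bf B (wG T H ep th l) (H l) := by
          unfold mG
          rw [bf_real]
        rw [e0, hE, bf_add_left, bf_smul]
        field_simp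
        ring
      rw [e1]
      refine (abs_add_le _ _).trans ?_
      have c0 : 0 ≤ T - BC.rh T (H l) := by linarith [(hr l).2]
      have t1 : |BC.rh T (H l) * bf E (wG T H ep th l) (H l)| ≤ 600 * Q ^ 9 * V0 ^ 5 / T ^ 2 := by
        rw [abs_mul, abs_of_pos (hr0 l)]
        calc BC.rh T (H l) * |bf E (wG T H ep th l) (H l)| ≤ T * (600 * Q ^ 9 * V0 ^ 5 / T ^ 3) :=
              mul_le_mul (hr l).2 (hEb l) (abs_nonneg _) hT0.le
          _ = _ := by field_simp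
      have t2 : |2 * ((T - BC.rh T (H l)) / T) * bf a (wG T H ep th l) (H l)| ≤
          2 * Q ^ 9 * V0 ^ 5 / T ^ 2 := by
        rw [abs_mul, abs_of_nonneg (show 0 ≤ 2 * ((T - BC.rh T (H l)) / T) by positivity)]
        have c1 : 2 * ((T - BC.rh T (H l)) / T) ≤ 2 * ((Q * V0) ^ 2 / (4 * T) / T) :=
          mul_le_mul_of_nonneg_left (div_le_div_of_nonneg_right (hgap l) hT0.le) (by norm_num)
        calc 2 * ((T - BC.rh T (H l)) / T) * |bf a (wG T H ep th l) (H l)|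
            ≤ 2 * ((Q * V0) ^ 2 / (4 * T) / T) * (3 * Q ^ 5 * V0 ^ 3) :=
              mul_le_mul c1 (hab l) (abs_nonneg _) (by positivity)
          _ = 3 / 2 * (Q ^ 7 * V0 ^ 5 / T ^ 2) := by field_simp; ring
          _ ≤ 2 * (Q ^ 9 * V0 ^ 5 / T ^ 2) := by
              have c2 : Q ^ 7 * V0 ^ 5 / T ^ 2 ≤ Q ^ 9 * V0 ^ 5 / T ^ 2 := by
                apply div_le_div_of_nonneg_right _ (by positivity)
                exact mul_le_mul_of_nonneg_right (hQpow (by norm_num)) (by positivity)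
              have c3 : 0 ≤ Q ^ 7 * V0 ^ 5 / T ^ 2 := by positivity
              linarith
          _ = _ := by ring
      have t3 : 600 * Q ^ 9 * V0 ^ 5 / T ^ 2 + 2 * Q ^ 9 * V0 ^ 5 / T ^ 2 =
          602 * Q ^ 9 * V0 ^ 5 / T ^ 2 := by ring
      linarith
    -- the difference of the radial components
    have ht : |‖H 0‖ ^ 2 * (tG T H ep th 0 - tG T H ep th 2)| ≤ Q ^ 5 * V0 ^ 5 / T ^ 2 := by
      have e1 : tG T H ep th 2 = (conj (cexp ((th : ℂ) * I)) * H 2).re := by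
        unfold tG wG
        rw [if_pos rfl]
      have e2 : tG T H ep th 0 - tG T H ep th 2 =
          (BC.rh T (H 2) - BC.rh T (H 0)) / BC.rh T (H 0) * tG T H ep th 2 := by
        rw [g.tG_eq h02, ← e1]
        have := hr0 0
        have := hH0 0
        field_simp
      rw [e2, abs_mul, abs_mul, abs_div, abs_of_pos (hr0 0),
        abs_of_nonneg (show (0 : ℝ) ≤ ‖H 0‖ ^ 2 by positivity)]
      have c1 : |BC.rh T (H 2) - BC.rh T (H 0)| ≤ (Q * V0) ^ 2 / (4 * T) := by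
        have a1 := hgap 0
        have a2 := hgap 2
        have a3 := (hr 0).2
        have a4 := (hr 2).2
        rw [abs_le]
        constructor <;> linarith
      have c2 : |BC.rh T (H 2) - BC.rh T (H 0)| / BC.rh T (H 0) ≤ (Q * V0) ^ 2 / (2 * T ^ 2) := by
        rw [div_le_iff₀ (hr0 0)]
        refine c1.trans ?_
        calc (Q * V0) ^ 2 / (4 * T) = (Q * V0) ^ 2 / (2 * T ^ 2) * (T / 2) := by field_simp; ring
          _ ≤ _ := mul_le_mul_of_nonneg_left (hr 0).1 (by positivity)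
      have c3 : |tG T H ep th 2| ≤ Q * V0 := (g.tG_le 2).trans (hHV 2)
      have c4 : ‖H 0‖ ^ 2 ≤ (Q * V0) ^ 2 := pow_le_pow_left₀ (norm_nonneg _) (hHV 0) 2
      calc ‖H 0‖ ^ 2 * (|BC.rh T (H 2) - BC.rh T (H 0)| / BC.rh T (H 0) * |tG T H ep th 2|)
          ≤ (Q * V0) ^ 2 * ((Q * V0) ^ 2 / (2 * T ^ 2) * (Q * V0)) := by
            apply mul_le_mul c4 _ (by have := hr0 0; positivity) (by positivity)
            exact mul_le_mul c2 c3 (abs_nonneg _) (by positivity)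
        _ = 1 / 2 * (Q ^ 5 * V0 ^ 5 / T ^ 2) := by ring
        _ ≤ _ := by
            have : 0 ≤ Q ^ 5 * V0 ^ 5 / T ^ 2 := by positivity
            linarith
    have hnd : nG T H ep th 0 * d 0 = ‖H 0‖ ^ 2 * (tG T H ep th 0 - tG T H ep th 2) +
        bf B (mG T H ep th 0) (H 0) - bf B (mG T H ep th 2) (H 2) := by
      have e3 : d 0 = -(tG T H ep th 2 / nG T H ep th 0 * (‖H 0‖ ^ 2 - ‖H 2‖ ^ 2)) -
          yG T H ep th B 0 0 := by
        rw [hd]; simp only [h02, if_false]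
      rw [e3]
      unfold yG
      rw [if_neg h02]
      unfold BC.GG
      rw [hmu 0, hmu 2]
      field_simp
      ring
    have e4 : nG T H ep th 0 * d 0 + 2 * Gm (wG T H ep th 0) (wG T H ep th 1) (wG T H ep th 2)
        (H 0) (H 1) (H 2) = ‖H 0‖ ^ 2 * (tG T H ep th 0 - tG T H ep th 2) +
        ((bf B (mG T H ep th 0) (H 0) + 2 * bf a (wG T H ep th 0) (H 0)) -
          (bf B (mG T H ep th 2) (H 2) + 2 * bf a (wG T H ep th 2) (H 2))) := by
      rw [hnd, Gm, ← ha]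
      ring
    rw [e4]
    have s1 := abs_add_le (‖H 0‖ ^ 2 * (tG T H ep th 0 - tG T H ep th 2))
      ((bf B (mG T H ep th 0) (H 0) + 2 * bf a (wG T H ep th 0) (H 0)) -
          (bf B (mG T H ep th 2) (H 2) + 2 * bf a (wG T H ep th 2) (H 2)))
    have s2 := abs_sub (bf B (mG T H ep th 0) (H 0) + 2 * bf a (wG T H ep th 0) (H 0))
      (bf B (mG T H ep th 2) (H 2) + 2 * bf a (wG T H ep th 2) (H 2))
    have k0 := key 0
    have k2 := key 2
    have z1 : Q ^ 5 * V0 ^ 5 / T ^ 2 ≤ Q ^ 9 * V0 ^ 5 / T ^ 2 := by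
      apply div_le_div_of_nonneg_right _ (by positivity)
      exact mul_le_mul_of_nonneg_right (hQpow (by norm_num)) (by positivity)
    have z2 : 602 * Q ^ 9 * V0 ^ 5 / T ^ 2 = 602 * (Q ^ 9 * V0 ^ 5 / T ^ 2) := by ring
    rw [z2] at k0 k2
    have z3 : |‖H 0‖ ^ 2 * (tG T H ep th 0 - tG T H ep th 2) +
        ((bf B (mG T H ep th 0) (H 0) + 2 * bf a (wG T H ep th 0) (H 0)) -
          (bf B (mG T H ep th 2) (H 2) + 2 * bf a (wG T H ep th 2) (H 2)))| ≤
        1205 * (Q ^ 9 * V0 ^ 5 / T ^ 2) := by linarith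
    refine z3.trans ?_
    -- final numbers
    have hV2 : V0 ^ 2 ≤ Q ^ 2 * T ^ (277 / 250 : ℝ) := by
      have := pow_le_pow_left₀ hV00.le hV0L 2
      rwa [mul_pow, hLsq] at this
    have hTT : T ^ (277 / 250 : ℝ) / T ^ 2 ≤ T ^ (-(1 / 2) : ℝ) := by
      have h2 : T ^ (2 : ℝ) = T ^ 2 := by rw [← Real.rpow_natCast]; norm_num
      rw [← h2, ← Real.rpow_sub hT0]
      exact Real.rpow_le_rpow_of_exponent_le hT1 (by norm_num)
    have h5 := p2 11
    norm_num at h5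
    have hTp : 0 ≤ T ^ (-(1 / 2) : ℝ) := Real.rpow_nonneg hT0.le _
    calc 1205 * (Q ^ 9 * V0 ^ 5 / T ^ 2) = 1205 * Q ^ 9 * V0 ^ 3 * (V0 ^ 2 / T ^ 2) := by ring
      _ ≤ 1205 * Q ^ 9 * V0 ^ 3 * (Q ^ 2 * T ^ (277 / 250 : ℝ) / T ^ 2) := by
          apply mul_le_mul_of_nonneg_left _ (by positivity)
          exact div_le_div_of_nonneg_right hV2 (by positivity)
      _ = 1205 * (Q ^ 11 * V0 ^ 3) * (T ^ (277 / 250 : ℝ) / T ^ 2) := by ring
      _ ≤ 1205 * (Q ^ 11 * V0 ^ 3) * T ^ (-(1 / 2) : ℝ) :=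
          mul_le_mul_of_nonneg_left hTT (by positivity)
      _ ≤ Q ^ 11 * (Q ^ 11 * V0 ^ 3) * T ^ (-(1 / 2) : ℝ) := by
          apply mul_le_mul_of_nonneg_right _ hTp
          exact mul_le_mul_of_nonneg_right (by linarith) (by positivity)
      _ = Q ^ 22 * V0 ^ 3 * T ^ (-(1 / 2) : ℝ) := by ring
      _ ≤ Q ^ 40 * V0 ^ 3 * T ^ (-(1 / 2) : ℝ) := by
          apply mul_le_mul_of_nonneg_right _ hTp
          exact mul_le_mul_of_nonneg_right (hQpow (by norm_num)) (by positivity)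

end Pool.Agent.F5H.K2.H18
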