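import Pool.Agent.Helper30_F5K.StmtsR
import Pool.Agent.Helper92_F5H.ERB

/-!
MP_f5cbfa_nt, squad F5H, row R_HTS: sum of the measures for the first alternative.
-/

set_option autoImplicit false

open MeasureTheory Complex ComplexConjugate

namespace Pool.Agent.F5H.K2.H30.H18

open Pool.Agent.Helper68_F5 Pool.Agent.F5H.W36 Pool.Agent.F5H.BC Pool.Agent.BTL Pool.Agent.F5S
  Pool.Agent.F5H Pool.Agent.F5H.K2.H30

/-- final arithmetic -/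
theorem arith {Q K L V0 V1 V2 r m : ℝ} (hQ : 10 ^ 4 ≤ Q) (hK0 : 0 ≤ K) (hKQ : K ≤ Q)
    (hL0 : 0 ≤ L) (hL : L ≤ Q ^ 2) (hV2 : 0 ≤ V2) (hr : 0 ≤ r) (hm0 : 0 ≤ m)
    (hm : m ≤ Q ^ 2 * r) :
    K * (Q ^ 8) ^ 24 * L ^ 3 * ((Q ^ 2 * V0) ^ 2 * (Q ^ 2 * V1) ^ 2 * (Q ^ 2 * V2 * m)) *
      (1 + 10 ^ 4 * (Q ^ 9) ^ 5) ≤ Q ^ 300 * (V0 ^ 2 * V1 ^ 2 * (V2 * r)) := by
  have hQ1 : 1 ≤ Q := by linarith
  have hQ0 : 0 < Q := by linarith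
  obtain ⟨W, hW⟩ : ∃ W, W = V0 ^ 2 * V1 ^ 2 * (V2 * r) := ⟨_, rfl⟩
  have hW0 : 0 ≤ W := by rw [hW]; positivity
  have h1 : 1 + 10 ^ 4 * (Q ^ 9) ^ 5 ≤ Q ^ 47 := by
    have a1 : 1 ≤ Q ^ 45 := one_le_pow₀ hQ1
    have a2 : 10 ^ 4 * Q ^ 45 ≤ Q * Q ^ 45 := mul_le_mul_of_nonneg_right hQ (by positivity)
    calc 1 + 10 ^ 4 * (Q ^ 9) ^ 5 = 1 + 10 ^ 4 * Q ^ 45 := by ring
      _ ≤ Q ^ 45 + Q * Q ^ 45 := by linarith
      _ ≤ Q * Q ^ 45 + Q * Q ^ 45 := by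
          have : Q ^ 45 ≤ Q * Q ^ 45 := le_mul_of_one_le_left (by positivity) hQ1
          linarith
      _ = 2 * Q ^ 46 := by ring
      _ ≤ Q * Q ^ 46 := mul_le_mul_of_nonneg_right (by linarith) (by positivity)
      _ = Q ^ 47 := by ring
  have h2 : L ^ 3 ≤ (Q ^ 2) ^ 3 := pow_le_pow_left₀ hL0 hL 3
  have h3 : (Q ^ 2 * V0) ^ 2 * (Q ^ 2 * V1) ^ 2 * (Q ^ 2 * V2 * m) ≤ Q ^ 12 * W := by
    calc (Q ^ 2 * V0) ^ 2 * (Q ^ 2 * V1) ^ 2 * (Q ^ 2 * V2 * m) ≤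
        (Q ^ 2 * V0) ^ 2 * (Q ^ 2 * V1) ^ 2 * (Q ^ 2 * V2 * (Q ^ 2 * r)) := by
          refine mul_le_mul_of_nonneg_left ?_ (by positivity)
          exact mul_le_mul_of_nonneg_left hm (by positivity)
      _ = Q ^ 12 * W := by rw [hW]; ring
  rw [← hW]
  have h4 : K * (Q ^ 8) ^ 24 * L ^ 3 ≤ Q * (Q ^ 8) ^ 24 * (Q ^ 2) ^ 3 := by
    refine mul_le_mul ?_ h2 (by positivity) (by positivity)
    exact mul_le_mul_of_nonneg_right hKQ (by positivity)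
  have h5 : 0 ≤ (Q ^ 2 * V0) ^ 2 * (Q ^ 2 * V1) ^ 2 * (Q ^ 2 * V2 * m) := by positivity
  calc K * (Q ^ 8) ^ 24 * L ^ 3 * ((Q ^ 2 * V0) ^ 2 * (Q ^ 2 * V1) ^ 2 * (Q ^ 2 * V2 * m)) *
      (1 + 10 ^ 4 * (Q ^ 9) ^ 5) ≤
      (Q * (Q ^ 8) ^ 24 * (Q ^ 2) ^ 3) * (Q ^ 12 * W) * Q ^ 47 := by
        refine mul_le_mul ?_ h1 (by positivity) (by positivity)
        exact mul_le_mul h4 h3 h5 (by positivity)
    _ = Q ^ 258 * W := by ring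
    _ ≤ Q ^ 300 * W :=
        mul_le_mul_of_nonneg_right (pow_le_pow_right₀ hQ1 (by norm_num)) hW0

/-- ROW R_HTS. -/
theorem hts : HTSStmt := by
  classical
  obtain ⟨K, hK, hkc⟩ := kc1
  refine ⟨300, by norm_num, max K (10 ^ 4), ?_⟩
  intro T Q A V k0 del u z m₁ R₁ hQK p hA 𝓗 𝓥 h𝓗
  have hKQ : K ≤ Q := le_trans (le_max_left _ _) hQK
  have hQ4 : 10 ^ 4 ≤ Q := le_trans (le_max_right _ _) hQK
  have hQ1 : 1 ≤ Q := by linarith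
  have hQ0 : 0 < Q := by linarith
  have hQ2 : 1 ≤ Q ^ 2 := one_le_pow₀ hQ1
  have hV2 : 1 ≤ V 2 := le_trans (one_le_pow₀ hQ1) p.v2
  have hV1 : 1 ≤ V 1 := le_trans hV2 p.v21
  have hV0 : 1 ≤ V 0 := le_trans hV1 p.v10
  have hk0 : 0 < k0 := by linarith [p.k1]
  have hz0 : 0 < z := by linarith [p.z1]
  have hRk : R₁ ≤ k0 := by rw [p.hR]; exact min_le_left _ _
  have hRs : R₁ ≤ √(V 0 * V 1) := by rw [p.hR]; exact min_le_right _ _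
  have hR1 := p.R1
  have hR0 : 0 < R₁ := by linarith
  have hRR : R₁ ^ 2 ≤ V 0 * V 1 := by
    have h1 : R₁ ^ 2 ≤ √(V 0 * V 1) ^ 2 := pow_le_pow_left₀ hR0.le hRs 2
    rwa [Real.sq_sqrt (by positivity)] at h1
  have hr1 := p.r1
  have hr0 : 0 < Rx T / T := by linarith
  have hT0 : 0 < T := by linarith [p.hT]
  have hω : ∀ x : ℝ, 1 ≤ Q ^ 3 * max 1 x := by
    intro x
    have h1 : 1 ≤ Q ^ 3 := one_le_pow₀ hQ1
    have h2 : 1 ≤ max 1 x := le_max_left _ _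
    nlinarith
  have hω' : ∀ v : ℝ, 0 ≤ v → Q ^ 3 * max 1 (v / z) ≤ Q ^ 9 * max 1 (Q ^ 2 * v / z) := by
    intro v hv
    have h1 : Q ^ 3 ≤ Q ^ 9 := pow_le_pow_right₀ hQ1 (by norm_num)
    have h2 : max 1 (v / z) ≤ max 1 (Q ^ 2 * v / z) := by
      refine max_le_max le_rfl ?_
      refine div_le_div_of_nonneg_right ?_ hz0.le
      exact le_mul_of_one_le_left hv hQ2
    refine mul_le_mul h1 h2 ?_ (by positivity)
    exact le_trans zero_le_one (le_max_left _ _)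
  have hE : ∀ R, 1 ≤ R → R ≤ Q * R₁ + Q ^ 8 → ER R (Q ^ 2 * V 0) (Q ^ 2 * V 1)
      (Q ^ 3 * max 1 (V 0 / z)) (Q ^ 3 * max 1 (V 1 / z)) ≤ 10 ^ 4 * (Q ^ 9) ^ 5 := by
    intro R hR hRle
    refine Pool.Agent.F5H.K2.H92.erb (Q ^ 9) (Q ^ 2 * V 0) (Q ^ 2 * V 1) k0 R R₁ z _ _
      (one_le_pow₀ hQ1) ?_ (mul_le_mul_of_nonneg_left p.v10 (by positivity)) ?_ p.k1 hR hR1 ?_
      hRk ?_ hz0 ?_ (hω _) (hω _) (hω' _ (by linarith)) (hω' _ (by linarith))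
    · nlinarith
    · calc Q ^ 2 * V 0 ≤ Q ^ 2 * V 1 ^ 2 := mul_le_mul_of_nonneg_left p.vsq (by positivity)
        _ ≤ Q ^ 4 * V 1 ^ 2 := by
            refine mul_le_mul_of_nonneg_right ?_ (by positivity)
            exact pow_le_pow_right₀ hQ1 (by norm_num)
        _ = (Q ^ 2 * V 1) ^ 2 := by ring
    · have a1 : Q * R₁ ≤ Q ^ 9 * R₁ := by
        refine mul_le_mul_of_nonneg_right ?_ hR0.le
        exact le_self_pow₀ hQ1 (by norm_num)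
      have a2 : Q ^ 8 ≤ Q ^ 9 * R₁ := by
        calc Q ^ 8 ≤ Q ^ 9 := pow_le_pow_right₀ hQ1 (by norm_num)
          _ = Q ^ 9 * 1 := (mul_one _).symm
          _ ≤ Q ^ 9 * R₁ := mul_le_mul_of_nonneg_left hR1 (by positivity)
      linarith
    · calc R₁ ^ 2 ≤ V 0 * V 1 := hRR
        _ = 1 * (V 0 * V 1) := (one_mul _).symm
        _ ≤ Q ^ 4 * (V 0 * V 1) :=
            mul_le_mul_of_nonneg_right (one_le_pow₀ hQ1) (by positivity)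
        _ = Q ^ 2 * V 0 * (Q ^ 2 * V 1) := by ring
    · refine le_trans p.zr ?_
      refine mul_le_mul_of_nonneg_left ?_ hz0.le
      rw [p.hm]
      refine min_le_min le_rfl ?_
      exact le_mul_of_one_le_left (by linarith) hQ2
  have hmain := hkc (gQ Q A) (sep_gQ hQ1 hA) (Q ^ 8) ((Q * T) ^ 2) 0 (Q ^ 2 * (Rx T / T))
    (Q * R₁) (Q ^ 3 * max 1 (V 0 / z)) (Q ^ 3 * max 1 (V 1 / z)) (Q ^ 2 * V 0) (Q ^ 2 * V 1)
    (Q ^ 2 * V 2) (10 ^ 4 * (Q ^ 9) ^ 5) (one_le_pow₀ hQ1) (by positivity) p.v7 (by nlinarith)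
    (mul_le_mul_of_nonneg_left p.v21 (by positivity))
    (mul_le_mul_of_nonneg_left p.v10 (by positivity)) (by
      have h1 : Q ^ 8 ≤ Q ^ 1000 := pow_le_pow_right₀ hQ1 (by norm_num)
      have h2 : Q ^ 8 ≤ V 0 := by linarith [p.v2, p.v21, p.v10]
      calc Q ^ 8 ≤ V 0 := h2
        _ ≤ Q ^ 2 * V 0 := le_mul_of_one_le_left (by linarith) hQ2) (by
      calc Q * R₁ ≤ Q * V 0 := mul_le_mul_of_nonneg_left (le_trans hRk p.kV) hQ0.le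
        _ ≤ Q ^ 2 * V 0 := by
            refine mul_le_mul_of_nonneg_right ?_ (by linarith)
            exact le_self_pow₀ hQ1 (by norm_num)) (by nlinarith) (hω _) (hω _) le_rfl (by
      rw [mul_zero]; norm_num) (by positivity) hE 𝓗 𝓥 (by
      intro h hh
      obtain ⟨a1, a2, a3, _, a5⟩ := h𝓗 h hh
      exact ⟨a1, a2, a3, a5⟩)
  rw [Finset.sum_product_right] at hmain
  refine le_trans hmain ?_
  apply ENNReal.ofReal_le_ofReal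
  have hlog0 : 0 ≤ 1 + Real.log (Q ^ 2 * V 0) := by
    have : 0 ≤ Real.log (Q ^ 2 * V 0) := by
      refine Real.log_nonneg ?_
      nlinarith
    linarith
  exact arith hQ4 (by linarith) hKQ hlog0 p.hlog (by linarith) hr0.le
    (le_min (by positivity) (by positivity)) (min_le_left _ _)

end Pool.Agent.F5H.K2.H30.H18
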